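import Pool.Agent.helper55.FPZ.Spec

set_option autoImplicit false

namespace Pool.Agent.FPZ

open Matrix Polynomial Pool.Agent.PL Pool.Agent.X4

theorem GZ (hPH : PH_stmt) (hD2 : D2_stmt) (hHG : HG_stmt) : GZ_stmt := by
  intro F _ _ N E D hc
  obtain ⟨hQ, h1E, hphi⟩ := hPH F N E D
  obtain ⟨d1, d2⟩ := hD2 N (D.Q D.base) hQ
  have ga : ∀ Y ∈ gD D, Yᵀ * D.Q D.base + D.Q D.base * Y = 0 := fun Y hY =>
    (d1 Y).1 (hY 2 _ (hphi 1 h1E))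
  have gy : ∀ Y ∈ gD D, ∀ y ∈ EndH D, Y * y = y * Y := fun Y hY y hy =>
    (d2 Y y (ga Y hY)).1 (hY 2 _ (hphi y hy))
  have hg := hHG N (D.h D.base) (hc D.base)
    (fun m => (D.Hodge D.base m : Set (Tn N m ℚ))) (fun m t ht => ht)
  refine ⟨gy, ?_, ?_, ?_⟩
  · intro m t ht
    exact hg.1 m t ht
  · intro z hz z' hz'
    exact hz.2.1 z' hz'.1
  · intro Y hY hcom
    refine ⟨?_, gy Y hY, ga Y hY⟩
    exact hg.2 Y fun W hW => (hcom W hW).symm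

end Pool.Agent.FPZ
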