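import Pool.Agent.helper55.FPZ.SpecZ
import Mathlib.Algebra.Category.Grp.Injective

/-!
Row `fpz:KG`: a homomorphism from a subgroup of `ℤ ^ N` to `Kˣ` extends.
-/

set_option autoImplicit false

namespace Pool.Agent.FPZ

open Matrix Polynomial Pool.Agent.PL Pool.Agent.X4

theorem KG_root (K : Type) [Field K] [IsAlgClosed K] (u : Kˣ) (m : ℕ) (hm : 0 < m) :
    ∃ w : Kˣ, w ^ m = u := by
  obtain ⟨z, hz⟩ := IsAlgClosed.exists_pow_nat_eq (u : K) hm
  have hz0 : z ≠ 0 := by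
    rintro rfl
    rw [zero_pow hm.ne'] at hz
    exact u.ne_zero hz.symm
  exact ⟨Units.mk0 z hz0, Units.ext (by simpa using hz)⟩

theorem KG_zroot (K : Type) [Field K] [IsAlgClosed K] (u : Kˣ) (n : ℤ) (hn : n ≠ 0) :
    ∃ w : Kˣ, w ^ n = u := by
  obtain ⟨w, hw⟩ := KG_root K u n.natAbs (Int.natAbs_pos.2 hn)
  rcases Int.natAbs_eq n with h | h
  · exact ⟨w, by rw [h, zpow_natCast]; exact hw⟩
  · exact ⟨w⁻¹, by rw [h, _root_.zpow_neg, _root_.inv_zpow, inv_inv, zpow_natCast]; exact hw⟩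

theorem KG_baer (K : Type) [Field K] [IsAlgClosed K] : Module.Baer ℤ (Additive Kˣ) := by
  let _ : DivisibleBy (Additive Kˣ) ℤ := divisibleByOfSMulRightSurj (Additive Kˣ) ℤ (by
    intro n hn a
    obtain ⟨w, hw⟩ := KG_zroot K a.toMul n hn
    exact ⟨Additive.ofMul w, by
      change n • Additive.ofMul w = a
      rw [← ofMul_zpow, hw]
      rfl⟩)
  exact Module.Baer.of_divisible _

theorem KG : KG_stmt := by
  intro N K _ _ S hmul hinv hone huniq
  let G0 : AddSubgroup ((Fin N → ℤ) × Additive Kˣ) :=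
    { carrier := {p | (p.1, p.2.toMul) ∈ S}
      add_mem' := fun {a b} ha hb => hmul _ ha _ hb
      zero_mem' := hone
      neg_mem' := fun {a} ha => hinv _ ha }
  let g : Submodule ℤ ((Fin N → ℤ) × Additive Kˣ) := AddSubgroup.toIntSubmodule G0
  have hmem : ∀ p : (Fin N → ℤ) × Additive Kˣ, p ∈ g ↔ (p.1, p.2.toMul) ∈ S := fun p => Iff.rfl
  have hg : ∀ x ∈ g, x.fst = 0 → x.snd = 0 := by
    rintro ⟨a, k⟩ hx h0
    have h1 : a = 0 := h0
    rw [hmem] at hx
    subst h1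
    exact huniq _ hx
  obtain ⟨h, hh⟩ := (KG_baer K).extension_property g.toLinearPMap.domain.subtype
    (Submodule.injective_subtype _) g.toLinearPMap.toFun
  refine ⟨fun i => (h (Pi.single i 1)).toMul, ?_⟩
  intro p hp
  have hpg : (p.1, Additive.ofMul p.2) ∈ g := by
    rw [hmem]
    exact hp
  have hdom : p.1 ∈ g.map (LinearMap.fst ℤ (Fin N → ℤ) (Additive Kˣ)) :=
    ⟨_, hpg, rfl⟩
  have h1 : (p.1, g.toLinearPMap ⟨p.1, hdom⟩) ∈ g := g.mem_graph_toLinearPMap hg ⟨p.1, hdom⟩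
  have h2 : g.toLinearPMap ⟨p.1, hdom⟩ = Additive.ofMul p.2 := by
    have h3 := g.sub_mem h1 hpg
    have h4 := hg _ h3 (by simp)
    simpa [sub_eq_zero] using h4
  have h5 : h p.1 = Additive.ofMul p.2 := by
    rw [← h2]
    exact congrArg (fun F => F ⟨p.1, hdom⟩) hh
  have h6 : h p.1 = ∑ i, p.1 i • h (Pi.single i 1) := by
    conv_lhs => rw [pi_eq_sum_univ' p.1]
    rw [map_sum]
    refine Finset.sum_congr rfl fun i _ => ?_
    rw [map_smul]
  have h7 : (∑ i, p.1 i • h (Pi.single i 1)).toMul = p.2 := by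
    rw [← h6, h5]
    rfl
  rw [← h7, toMul_sum]
  refine Finset.prod_congr rfl fun i _ => ?_
  rw [toMul_zsmul]

end Pool.Agent.FPZ
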